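import Mathlib

/-!
# An equal value of the sequences `H_a` and `H_b`

`H d n` is the number of permutations of an `n`-element set all of whose cycles have length `1` or
`d`.  We show `H 42 49 = H 45 47`, so that the quadruple `(a, b, n, m) = (42, 45, 49, 47)` answers
the existence question affirmatively.
-/

namespace Pool.Agent.Results.MP_2d70c5_nt.EqualValues

/-- `H d n` is the number of permutations of an `n`-element set all of whose cycles have length
`1` or `d` (Mathlib's `cycleType` is the multiset of the lengths of the cycles of length at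
least `2`). -/
noncomputable def H (d n : ℕ) : ℕ :=
  Nat.card {σ : Equiv.Perm (Fin n) // ∀ c ∈ σ.cycleType, c = d}

/-- If `2 ≤ d ≤ n < 2 * d`, there are only two possible cycle types. -/
theorem H_eq {d n : ℕ} (hd : 2 ≤ d) (hdn : d ≤ n) (hn : n < 2 * d) :
    H d n = 1 + n.factorial / ((n - d).factorial * d) := by
  classical
  have key : ∀ σ : Equiv.Perm (Fin n), (∀ c ∈ σ.cycleType, c = d) ↔
      σ.cycleType = 0 ∨ σ.cycleType = {d} := by
    intro σ
    constructor
    · intro h
      have hrep : σ.cycleType = Multiset.replicate (Multiset.card σ.cycleType) d :=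
        Multiset.eq_replicate_card.mpr h
      have hsum : σ.cycleType.sum ≤ n := by
        have := σ.sum_cycleType_le
        simpa using this
      rw [hrep, Multiset.sum_replicate, smul_eq_mul] at hsum
      have hcard : Multiset.card σ.cycleType < 2 := by
        by_contra hcon
        push Not at hcon
        have : 2 * d ≤ Multiset.card σ.cycleType * d := Nat.mul_le_mul_right d hcon
        omega
      interval_cases hc : Multiset.card σ.cycleType
      · left
        rw [hrep]; simp
      · right
        rw [hrep]; simp
    · rintro (h | h)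
      · rw [h]; simp
      · rw [h]; simp
  have h0 : (Finset.univ.filter fun σ : Equiv.Perm (Fin n) => σ.cycleType = 0).card = 1 := by
    have : (Finset.univ.filter fun σ : Equiv.Perm (Fin n) => σ.cycleType = 0) = {1} := by
      ext σ
      simp [Equiv.Perm.cycleType_eq_zero]
    rw [this]; simp
  have h1 : (Finset.univ.filter fun σ : Equiv.Perm (Fin n) => σ.cycleType = {d}).card
      = n.factorial / ((n - d).factorial * d) := by
    rw [Equiv.Perm.card_of_cycleType (Fin n) {d}]
    simp [hdn, hd]
  have hunion : (Finset.univ.filter fun σ : Equiv.Perm (Fin n) => ∀ c ∈ σ.cycleType, c = d)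
      = (Finset.univ.filter fun σ : Equiv.Perm (Fin n) => σ.cycleType = 0) ∪
        (Finset.univ.filter fun σ : Equiv.Perm (Fin n) => σ.cycleType = {d}) := by
    ext σ
    simp only [Finset.mem_filter, Finset.mem_univ, true_and, Finset.mem_union]
    exact key σ
  have hdisj : Disjoint (Finset.univ.filter fun σ : Equiv.Perm (Fin n) => σ.cycleType = 0)
      (Finset.univ.filter fun σ : Equiv.Perm (Fin n) => σ.cycleType = {d}) := by
    rw [Finset.disjoint_left]
    intro σ h h'
    simp only [Finset.mem_filter, Finset.mem_univ, true_and] at h h'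
    rw [h] at h'
    exact absurd h'.symm (Multiset.singleton_ne_zero d)
  unfold H
  rw [Nat.card_eq_fintype_card, Fintype.card_subtype, hunion, Finset.card_union_of_disjoint hdisj,
    h0, h1]

/-- There is a quadruple `2 ≤ a < b`, `n ≥ a`, `m ≥ b` with `H_a(n) = H_b(m)`; explicitly
`H_42(49) = H_45(47)`. -/
theorem result : ∃ a b n m : ℕ, 2 ≤ a ∧ a < b ∧ a ≤ n ∧ b ≤ m ∧ H a n = H b m := by
  refine ⟨42, 45, 49, 47, by norm_num, by norm_num, by norm_num, by norm_num, ?_⟩
  rw [H_eq (by norm_num) (by norm_num) (by norm_num), H_eq (by norm_num) (by norm_num) (by norm_num)]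
  norm_num [Nat.factorial]

end Pool.Agent.Results.MP_2d70c5_nt.EqualValues
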